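import Pool.Agent.Mg.F29e935p.Gddacfe
import Pool.Agent.MP_29e935_co.FullAux

/-!
Every finite `r`-regular simple graph with `r > 1` that is not isomorphic to two disjoint
triangles has a vertex-magic total labelling: a bijection from vertices and edges onto
`{1, …, p + q}` with a constant vertex weight.
-/

theorem Pool.Agent.Results.MP_29e935_co.Full.result :
    ∀ (V : Type) [Fintype V] [DecidableEq V] (G : SimpleGraph V) [DecidableRel G.Adj] (r : ℕ),
      1 < r → G.IsRegularOfDegree r →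
      IsEmpty (G ≃g SimpleGraph.sum (⊤ : SimpleGraph (Fin 3)) (⊤ : SimpleGraph (Fin 3))) →
      ∃ (f : V ⊕ G.edgeSet → ℕ) (k : ℕ),
        Set.BijOn f Set.univ (Set.Icc 1 (Fintype.card V + Fintype.card G.edgeSet)) ∧
        ∀ x : V, f (Sum.inl x) + ∑ y : G.neighborSet x, f (Sum.inr ⟨s(x, y.1), y.2⟩) = k := by
  intro V _ _ G _ r h1 hG hne
  obtain ⟨h, g, k, a1, a2, a3, a4, a5, a6⟩ :=
    Pool.Agent.MP_29e935_co.Six.all_regularE Pool.Agent.MP_29e935_co.Six.gtd V G r h1 hG
      (fun ⟨e2, e6, ec⟩ => hne.false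
        (Pool.Agent.MP_29e935_co.FullAux.iso_two_triangles G (e2 ▸ hG) e6 ec).some)
  exact Pool.Agent.MP_29e935_co.FullAux.bij_of_labels G h g k a1 a2 a3 a4 a5 a6
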